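import Mathlib
import Pool.Agent.Helper8_Coheir.Convert

set_option autoImplicit false

open FirstOrder FirstOrder.Language

namespace Pool.Agent.Results.MP_064793_lc.InvariantCoheir

universe u v w

/-- The complete theory of `U` is NIP: no formula `φ(x;y)`, `x` and `y` finite tuples of variables,
has the independence property, i.e. for every `φ(x;y)` there is a `K` such that no `K` tuples
`a 0, ..., a (K-1)` of `U` are shattered by the instances `φ(-;b)` with `b` in `U`. -/
def IsNIP (L : FirstOrder.Language.{u, v}) (U : Type w) [L.Structure U] : Prop :=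
  ∀ (p q : ℕ) (φ : L.Formula (Fin p ⊕ Fin q)), ∃ K : ℕ,
    ¬ ∃ a : Fin K → Fin p → U, ∀ J : Set (Fin K), ∃ b : Fin q → U, ∀ i : Fin K,
      (φ.Realize (Sum.elim (a i) b) ↔ i ∈ J)

/-- `U` is `κ`-saturated: for every `A ⊆ U` with `|A| < κ`, every set `p` of formulas over `A` in
finitely many variables which is finitely satisfiable in `U` is realized in `U`. -/
def IsSaturated (L : FirstOrder.Language.{u, v}) (κ : Cardinal.{w}) (U : Type w)
    [L.Structure U] : Prop :=
  ∀ A : Set U, Cardinal.mk A < κ → ∀ (n : ℕ) (p : Set (L[[A]].Formula (Fin n))),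
    (∀ p₀ : Finset (L[[A]].Formula (Fin n)), (∀ χ ∈ p₀, χ ∈ p) →
      ∃ v : Fin n → U, ∀ χ ∈ p₀, χ.Realize v) →
    ∃ v : Fin n → U, ∀ χ ∈ p, χ.Realize v

section Types

variable {L : FirstOrder.Language.{u, v}} {U : Type w} [L.Structure U]

/-- `tp(c/M) = tp(c'/M)`. -/
def SameType (M : L.ElementarySubstructure U) {m : ℕ} (c c' : Fin m → U) : Prop :=
  ∀ θ : L[[(M : Set U)]].Formula (Fin m), θ.Realize c ↔ θ.Realize c'

/-- `tp(a/N)` is `M`-invariant: for every `L`-formula `χ(x;w)` and all tuples `c`, `c'` from `N`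
with `tp(c/M) = tp(c'/M)`, we have `χ(a;c)` if and only if `χ(a;c')`. -/
def IsInvariantType (N M : L.ElementarySubstructure U) {q : ℕ} (a : Fin q → U) : Prop :=
  ∀ (m : ℕ) (χ : L.Formula (Fin q ⊕ Fin m)) (c c' : Fin m → U), (∀ i, c i ∈ N) →
    (∀ i, c' i ∈ N) → SameType M c c' →
      (χ.Realize (Sum.elim a c) ↔ χ.Realize (Sum.elim a c'))

/-- `tp(b/N)` is finitely satisfiable in `M`: every formula with parameters in `N` satisfied by
`b` is satisfied by some tuple from `M`. -/
def IsFinitelySatisfiableType (N M : L.ElementarySubstructure U) {r : ℕ} (b : Fin r → U) :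
    Prop :=
  ∀ χ : L[[(N : Set U)]].Formula (Fin r), χ.Realize b →
    ∃ d : Fin r → U, (∀ i, d i ∈ M) ∧ χ.Realize d

end Types

section Aux

open Helper8Coheir

variable {L : FirstOrder.Language.{u, v}} {U : Type w} [L.Structure U]

/-- The inclusion `M → N` as an elementary embedding. -/
def incl {M N : L.ElementarySubstructure U} (hMN : M ≤ N) : M ↪ₑ[L] N where
  toFun x := ⟨x.1, hMN x.2⟩
  map_formula' := by
    intro n φ x
    have h1 := N.subtype.map_formula φ (fun i => (⟨(x i).1, hMN (x i).2⟩ : N))
    have h2 := M.subtype.map_formula φ x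
    exact h1.symm.trans h2

theorem compactness_of_saturated {M N : L.ElementarySubstructure U} (hMN : M ≤ N)
    (hN : IsSaturated L (Order.succ (Cardinal.mk M)) N) : Compactness (incl hMN) := by
  classical
  intro α _ F hF hfin
  obtain ⟨n, ⟨e⟩⟩ := Finite.exists_equiv_fin α
  let A : Set N := Set.range (incl hMN)
  have hA : Cardinal.mk A < Order.succ (Cardinal.mk M) :=
    Order.lt_succ_of_le Cardinal.mk_range_le
  have key : ∀ S : F, ∃ χ : L[[A]].Formula (Fin n), ∀ v : Fin n → N,
      χ.Realize v ↔ (fun x => v (e x)) ∈ S.1 := by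
    intro S
    obtain ⟨ψ, hψ⟩ := hF S.1 S.2
    refine ⟨toCon A (Formula.relabel (Sum.map e (fun m => (⟨incl hMN m, m, rfl⟩ : A))) ψ),
      fun v => ?_⟩
    rw [realize_toCon, Formula.realize_relabel, hψ]
    have : (Sum.elim v fun a : A => (a : N)) ∘
        (Sum.map e (fun m => (⟨incl hMN m, m, rfl⟩ : A))) =
        Sum.elim (fun x => v (e x)) (incl hMN) := by
      funext x
      rcases x with x | x <;> rfl
    rw [this]
  choose χ hχ using key
  obtain ⟨v, hv⟩ := hN A hA n (Set.range χ) (by
    intro p₀ hp₀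
    choose g hg using fun x : p₀ => hp₀ x.1 x.2
    obtain ⟨v, hv⟩ := hfin (p₀.attach.image g)
    refine ⟨fun i => v (e.symm i), fun θ hθ => ?_⟩
    have h1 := hv (g ⟨θ, hθ⟩) (Finset.mem_image_of_mem g (Finset.mem_attach p₀ ⟨θ, hθ⟩))
    have hθ' : χ (g ⟨θ, hθ⟩) = θ := hg ⟨θ, hθ⟩
    rw [← hθ', hχ]
    simpa using h1)
  refine ⟨fun x => v (e x), fun S hS => ?_⟩
  rw [← hχ ⟨S, hS⟩]
  exact hv _ ⟨⟨S, hS⟩, rfl⟩

theorem nipRel_of_isNIP (hT : IsNIP L U) {M N : L.ElementarySubstructure U} (hMN : M ≤ N) :
    NIPRel (incl hMN) := by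
  classical
  intro A B _ _ S hS
  obtain ⟨ψ, hψ⟩ := hS
  obtain ⟨p, c, ψ', h'⟩ := exists_finite_support.{u, v, w, w} ψ
  obtain ⟨n, ⟨eA⟩⟩ := Finite.exists_equiv_fin A
  obtain ⟨m, ⟨eB⟩⟩ := Finite.exists_equiv_fin (B ⊕ Fin p)
  let g : (A ⊕ B) ⊕ Fin p → Fin n ⊕ Fin m := Sum.elim (Sum.elim (fun x => Sum.inl (eA x))
    (fun y => Sum.inr (eB (Sum.inl y)))) (fun p => Sum.inr (eB (Sum.inr p)))
  obtain ⟨K, hK⟩ := hT n m (Formula.relabel g ψ')
  refine ⟨K, ?_⟩
  rintro ⟨a, ha⟩
  apply hK
  refine ⟨fun i x => (a (i, eA.symm x) : U), fun J => ?_⟩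
  obtain ⟨b, hb⟩ := ha (fun i => decide (i ∈ J))
  refine ⟨fun y => (Sum.elim b (fun i => incl hMN (c i)) (eB.symm y) : N), fun i => ?_⟩
  have h1 := hb i
  rw [decide_eq_true_eq] at h1
  rw [← h1, hψ, h' N _ (incl hMN), Formula.realize_relabel, ← N.subtype.map_formula]
  have : (Sum.elim (fun x => ((a (i, eA.symm x) : N) : U))
      (fun y => ((Sum.elim b (fun i => incl hMN (c i)) (eB.symm y) : N) : U))) ∘ g =
      N.subtype ∘ (Sum.elim (Sum.elim (fun x => a (i, x)) b) (fun i => incl hMN (c i))) := by
    funext x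
    rcases x with (x | x) | x <;> simp [g]
  rw [this]

end Aux

open Helper8Coheir

/-- **Invariant types in NIP theories are coheir-definable.**  Let `Th(U)` be NIP, let
`M ≤ N` be elementary substructures of `U` with `N` `|M|⁺`-saturated and `U` `|N|⁺`-saturated,
let `a` be a tuple of `U` with `tp(a/N)` `M`-invariant, and let `φ(x;y)` be a formula with
parameters from `M`.  Then there are a tuple `b` of `U` with `tp(b/N)` finitely satisfiable in
`M` and an `L`-formula `ψ(x;z)` with `φ(N;a) = ψ(N;b)`. -/
theorem result {L : FirstOrder.Language.{u, v}} {U : Type w} [L.Structure U] [Nonempty U]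
    (hT : IsNIP L U) (M N : L.ElementarySubstructure U) (hMN : M ≤ N)
    (hN : IsSaturated L (Order.succ (Cardinal.mk M)) N)
    (hU : IsSaturated L (Order.succ (Cardinal.mk N)) U)
    {p q : ℕ} (φ : L[[(M : Set U)]].Formula (Fin p ⊕ Fin q)) (a : Fin q → U)
    (ha : IsInvariantType N M a) :
    ∃ (r : ℕ) (ψ : L.Formula (Fin p ⊕ Fin r)) (b : Fin r → U),
      IsFinitelySatisfiableType N M b ∧
      {c : Fin p → N | φ.Realize (Sum.elim (fun i => (c i : U)) a)} =
        {c : Fin p → N | ψ.Realize (Sum.elim (fun i => (c i : U)) b)} := by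
  classical
  -- the parameters of `φ` as a tuple `d` from `M`
  obtain ⟨l, d, φ₂, hφ₂⟩ := exists_finite_support.{u, v, w, w} (toVar (M : Set U) φ)
  let f : M ↪ₑ[L] N := incl hMN
  -- the invariant predicate
  let Φ : (Fin p → N) → Prop := fun c => φ.Realize (Sum.elim (fun i => (c i : U)) a)
  have hΦ : ∀ c, Φ c ↔ φ₂.Realize (Sum.elim (Sum.elim (fun i => (c i : U)) a)
      (fun i => (d i : U))) := fun c =>
    (realize_toVar (M : Set U) φ _).symm.trans (hφ₂ U _ _)
  -- invariance
  have hinv : ∀ c c' : Fin p → N, tpEq f c c' → (Φ c ↔ Φ c') := by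
    intro c c' hcc
    have h1 := ha (p + l) (Formula.relabel (Sum.elim
      (Sum.elim (fun i => Sum.inr (Fin.castAdd l i)) (fun j => Sum.inl j))
      (fun i => Sum.inr (Fin.natAdd p i))) φ₂)
      (Fin.append (fun i => (c i : U)) (fun i => (d i : U)))
      (Fin.append (fun i => (c' i : U)) (fun i => (d i : U)))
      (by
        intro i
        refine Fin.addCases (fun i => ?_) (fun i => ?_) i
        · rw [Fin.append_left]
          exact (c i).2
        · rw [Fin.append_right]
          exact hMN (d i).2)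
      (by
        intro i
        refine Fin.addCases (fun i => ?_) (fun i => ?_) i
        · rw [Fin.append_left]
          exact (c' i).2
        · rw [Fin.append_right]
          exact hMN (d i).2)
      (by
        intro θ
        have h2 := hcc _ (Mdef.formula f (toVar (M : Set U) θ) (Sum.elim
          (Fin.append (fun i => Sum.inl i) (fun i => Sum.inr (d i)) :
              Fin (p + l) → Fin p ⊕ M) (fun x : (M : Set U) => Sum.inr (x : M))))
        have key : ∀ v : Fin p → N, v ∈ {v : Fin p → N | (toVar (M : Set U) θ).Realize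
            (fun x => Sum.elim v f ((Sum.elim
              (Fin.append (fun i => Sum.inl i) (fun i => Sum.inr (d i)) :
              Fin (p + l) → Fin p ⊕ M) (fun x : (M : Set U) => Sum.inr (x : M))) x))} ↔
            θ.Realize (Fin.append (fun i => (v i : U)) (fun i => (d i : U))) := by
          intro v
          rw [Set.mem_ofPred_eq, ← N.subtype.map_formula, ← realize_toVar (M : Set U) θ]
          have : N.subtype ∘ (fun x => Sum.elim v f ((Sum.elim
              (Fin.append (fun i => Sum.inl i) (fun i => Sum.inr (d i)) :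
              Fin (p + l) → Fin p ⊕ M) (fun x : (M : Set U) => Sum.inr (x : M))) x)) =
              Sum.elim (Fin.append (fun i => (v i : U)) (fun i => (d i : U)))
                (fun x : (M : Set U) => (x : U)) := by
            funext x
            rcases x with x | x
            · refine Fin.addCases (fun i => ?_) (fun i => ?_) x
              · simp
              · simp
                rfl
            · rfl
          rw [this]
        rw [key, key] at h2
        exact h2)
    rw [Formula.realize_relabel, Formula.realize_relabel] at h1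
    have key2 : ∀ v : Fin p → N, (Sum.elim a (Fin.append (fun i => (v i : U))
          (fun i => (d i : U)))) ∘ (Sum.elim
      (Sum.elim (fun i => Sum.inr (Fin.castAdd l i)) (fun j => Sum.inl j))
      (fun i => Sum.inr (Fin.natAdd p i))) =
        Sum.elim (Sum.elim (fun i => (v i : U)) a) (fun i => (d i : U)) := by
      intro v
      funext x
      rcases x with (x | x) | x <;> simp
    rw [key2, key2] at h1
    rw [hΦ, hΦ]
    exact h1
  -- finite traces are attained in `N`
  let φ₃ : L.Formula (Fin (q + l) ⊕ Fin p) := Formula.relabel (Sum.elim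
      (Sum.elim (fun i => Sum.inr i) (fun j => Sum.inl (Fin.castAdd l j)))
      (fun i => Sum.inl (Fin.natAdd q i))) φ₂
  have hcons : ∀ (K : ℕ) (w : Fin K → Fin p → N), ∃ x : Fin (q + l) → N, ∀ i,
      (φ₃.Realize (Sum.elim x (w i)) ↔ Φ (w i)) := by
    intro K w
    have hd : Mdef N.subtype {x : Fin q → U | ∀ i : Fin K,
        x ∈ {x : Fin q → U | x ∈ {x : Fin q → U | φ₂.Realize (fun z => Sum.elim x N.subtype
          ((Sum.elim (Sum.elim (fun j => Sum.inr (w i j)) (fun j => Sum.inl j))
            (fun j => Sum.inr (f (d j))) : (Fin p ⊕ Fin q) ⊕ Fin l → Fin q ⊕ N) z))} ↔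
            Φ (w i)}} :=
      Mdef.all fun i => (Mdef.formula N.subtype φ₂ _).iff_const _
    have key : ∀ (x : Fin q → U) (i : Fin K), (fun z => Sum.elim x N.subtype
          ((Sum.elim (Sum.elim (fun j => Sum.inr (w i j)) (fun j => Sum.inl j))
            (fun j => Sum.inr (f (d j))) : (Fin p ⊕ Fin q) ⊕ Fin l → Fin q ⊕ N) z)) =
          Sum.elim (Sum.elim (fun j => (w i j : U)) x) (fun j => (d j : U)) := by
      intro x i
      funext z
      rcases z with (z | z) | z <;> rfl
    obtain ⟨x, hx⟩ := hd.point (v₀ := a) (by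
      intro i
      simp only [Set.mem_ofPred_eq, key]
      exact (hΦ (w i)).symm)
    refine ⟨Fin.append x (fun j => f (d j)), fun i => ?_⟩
    have h1 := hx i
    simp only [Set.mem_ofPred_eq, key] at h1
    rw [← h1, Formula.realize_relabel, ← N.subtype.map_formula]
    have : N.subtype ∘ Sum.elim (Fin.append x fun j => f (d j)) (w i) ∘
        (Sum.elim (Sum.elim (fun i => Sum.inr i) (fun j => Sum.inl (Fin.castAdd l j)))
      (fun i => Sum.inl (Fin.natAdd q i))) =
        Sum.elim (Sum.elim (fun j => (w i j : U)) (fun j => N.subtype (x j)))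
          (fun j => (d j : U)) := by
      funext z
      rcases z with (z | z) | z
      · rfl
      · simp
      · simp
        rfl
    rw [this]
  obtain ⟨k, ψ, hψ⟩ := main_single (f := f) (nipRel_of_isNIP hT hMN)
    (compactness_of_saturated hMN hN) φ₃ Φ hinv hcons
  -- the tuple `b`
  choose z hz using fun C : Finset (Fin p → N) => hψ (C : Set (Fin p → N)) C.finite_toSet
  let 𝓕 : Ultrafilter (Finset (Fin p → N)) := Ultrafilter.of Filter.atTop
  have hu : ∀ c : Fin p → N, ∀ᶠ C in (𝓕 : Filter (Finset (Fin p → N))), c ∈ C := by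
    intro c
    have h1 : (𝓕 : Filter (Finset (Fin p → N))) ≤ Filter.atTop := Ultrafilter.of_le _
    refine h1 ?_
    filter_upwards [Filter.eventually_ge_atTop ({c} : Finset (Fin p → N))] with C hC
    exact hC (Finset.mem_singleton_self c)
  obtain ⟨b, hb⟩ := hU (N : Set U) (Order.lt_succ _) k
    {χ | ∀ᶠ C in (𝓕 : Filter (Finset (Fin p → N))), χ.Realize (fun i => (z C i : U))} (by
      intro p₀ hp₀
      have h1 : ∀ᶠ C in (𝓕 : Filter (Finset (Fin p → N))), ∀ χ ∈ p₀,
          χ.Realize (fun i => (z C i : U)) :=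
        (Filter.eventually_all_finset p₀).2 hp₀
      obtain ⟨C, hC⟩ := h1.exists
      exact ⟨_, hC⟩)
  refine ⟨k, ψ, b, ?_, ?_⟩
  · intro χ hχ
    by_contra hno
    have h1 : ∀ C, ¬ χ.Realize (fun i => (z C i : U)) := fun C hC =>
      hno ⟨_, fun i => (z C i).2, hC⟩
    have h2 := hb χ.not (Filter.Eventually.of_forall fun C => h1 C)
    exact h2 hχ
  · have key : ∀ (c : Fin p → N) (x : Fin k → U),
        (toCon (N : Set U) (Formula.relabel (Sum.elim (fun i => Sum.inr (c i))
          (fun j => Sum.inl j)) ψ : L.Formula (Fin k ⊕ (N : Set U)))).Realize x ↔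
          ψ.Realize (Sum.elim (fun i => (c i : U)) x) := by
      intro c x
      rw [realize_toCon, Formula.realize_relabel]
      have : (Sum.elim x fun a : (N : Set U) => (a : U)) ∘
          (Sum.elim (fun i => Sum.inr (c i)) (fun j => Sum.inl j)) =
          Sum.elim (fun i => (c i : U)) x := by
        funext x
        rcases x with x | x <;> rfl
      rw [this]
    have hev : ∀ c : Fin p → N, ∀ᶠ C in (𝓕 : Filter (Finset (Fin p → N))),
        (ψ.Realize (Sum.elim (fun i => (c i : U)) (fun i => (z C i : U))) ↔ Φ c) := by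
      intro c
      filter_upwards [hu c] with C hC
      rw [← hz C c (by simpa using hC), ← N.subtype.map_formula]
      have : N.subtype ∘ Sum.elim c (fun i => f (z C i)) =
          Sum.elim (fun i => (c i : U)) (fun i => (z C i : U)) := by
        funext x
        rcases x with x | x <;> rfl
      rw [this]
    ext c
    simp only [Set.mem_ofPred_eq]
    constructor
    · intro hc
      rw [← key]
      refine hb _ ?_
      rw [Set.mem_ofPred_eq]
      filter_upwards [hev c] with C hC
      rw [key]
      exact hC.2 hc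
    · intro hc
      by_contra hno
      have h1 := hb (toCon (N : Set U) (Formula.relabel (Sum.elim (fun i => Sum.inr (c i))
          (fun j => Sum.inl j)) ψ : L.Formula (Fin k ⊕ (N : Set U)))).not (by
        rw [Set.mem_ofPred_eq]
        filter_upwards [hev c] with C hC
        rw [Formula.realize_not, key]
        exact fun h => hno (hC.1 h))
      rw [Formula.realize_not, key] at h1
      exact h1 hc

end Pool.Agent.Results.MP_064793_lc.InvariantCoheir
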